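import Pool.Agent.H90.STK.Stmts3
import Pool.Agent.H89.STK.TST

/-!
# TS2: a covering at one scale bounds the conditional entropy of the positions
-/

set_option autoImplicit false

namespace Pool.STK

open Finset Real MeasureTheory
open scoped RealInnerProductSpace
open Pool.Agent.H49.Ent Pool.Agent.H32.Dense
open Pool.Agent.H53.Kak (E tube norm_le_of_coord)
open Pool.Agent.H53.Dns (Mx psl slp coord_le)

namespace TS2

open TST (hm_pos hm_mul hm_le floor_near wc wc_near cyl_two axis_mem)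

variable {d : ℕ} {ι : Type}

/-- Directions with the same rounded slopes are close. -/
lemma dir_near {k : Fin (d + 1)} {g : ℤ} {q : Fin d → ℤ} {c e : ι → E d} (h : Cell2 k g q c e)
    {j : ℕ} {i i' : ι} (hij : Fl (dT k e) j i = Fl (dT k e) j i') :
    ‖e i - e i'‖ ≤ 16 * ((d : ℝ) + 1) ^ 2 * ((2 : ℝ) ^ j)⁻¹ := by
  have h2j : (0 : ℝ) < 2 ^ j := by positivity
  have hh := hm_pos d
  have hsl : ∀ l, |slp k (e i) l - slp k (e i') l| ≤ 8 * ((d : ℝ) + 1) * ((2 : ℝ) ^ j)⁻¹ := by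
    intro l
    have h1 : ⌊2 ^ j * dT k e i l⌋ = ⌊2 ^ j * dT k e i' l⌋ := congrFun hij l
    have h2 := Int.abs_sub_lt_one_of_floor_eq_floor h1
    unfold dT at h2
    have h3 : (2 : ℝ) ^ j * (hm d * slp k (e i) l) - 2 ^ j * (hm d * slp k (e i') l) =
        (2 ^ j * hm d) * (slp k (e i) l - slp k (e i') l) := by ring
    rw [h3, abs_mul, abs_of_pos (by positivity)] at h2
    have h4 : 8 * ((d : ℝ) + 1) * ((2 : ℝ) ^ j)⁻¹ = (2 ^ j * hm d)⁻¹ := by
      have := hm_mul d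
      rw [eq_comm, mul_inv, mul_comm]
      congr 1
      unfold hm
      rw [one_div, inv_inv]
    rw [h4, ← one_div, le_div_iff₀ (by positivity)]
    linarith
  have hcoord : ∀ r, |((e i k)⁻¹ • e i - (e i' k)⁻¹ • e i') r| ≤
      8 * ((d : ℝ) + 1) * ((2 : ℝ) ^ j)⁻¹ := by
    intro r
    have hk1 := (h.mx i).ne (h.unit i)
    have hk0 := (h.mx i').ne (h.unit i')
    simp only [PiLp.sub_apply, PiLp.smul_apply, smul_eq_mul]
    rcases eq_or_ne r k with rfl | hr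
    · rw [inv_mul_cancel₀ hk1, inv_mul_cancel₀ hk0, sub_self, abs_zero]
      positivity
    · obtain ⟨l, rfl⟩ := Fin.exists_succAbove_eq hr
      have := hsl l
      simp only [slp] at this
      rw [inv_mul_eq_div, inv_mul_eq_div]
      exact this
  have hnorm := norm_le_of_coord (by positivity) hcoord
  have hfin : 2 * (((d : ℝ) + 1) * (8 * ((d : ℝ) + 1) * ((2 : ℝ) ^ j)⁻¹)) =
      16 * ((d : ℝ) + 1) ^ 2 * ((2 : ℝ) ^ j)⁻¹ := by ring
  rcases h.sg with hs | hs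
  · refine (Pool.Agent.H32.AKT.slope_sep (j := k) (h.unit i) (h.unit i')
      (hs i) (hs i')).trans ?_
    linarith
  · have h3 := Pool.Agent.H32.AKT.slope_sep (j := k) (e := -e i) (e' := -e i')
      (by rw [norm_neg]; exact h.unit i) (by rw [norm_neg]; exact h.unit i')
      (by simp only [PiLp.neg_apply]; linarith [hs i])
      (by simp only [PiLp.neg_apply]; linarith [hs i'])
    have e1 : -e i - -e i' = -(e i - e i') := by abel
    have e2 : ((-e i) k)⁻¹ • -e i - ((-e i') k)⁻¹ • -e i' =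
        (e i k)⁻¹ • e i - (e i' k)⁻¹ • e i' := by
      simp only [PiLp.neg_apply, inv_neg, smul_neg, neg_smul, neg_neg]
    rw [e1, norm_neg, e2] at h3
    linarith

/-- Centres are in a box. -/
lemma cen_near {k : Fin (d + 1)} {g : ℤ} {q : Fin d → ℤ} {c e : ι → E d} (h : Cell2 k g q c e)
    (i i' : ι) (r : Fin (d + 1)) : |c i r - c i' r| ≤ 5 := by
  have k1 := abs_le.mp (h.ht i)
  have k2 := abs_le.mp (h.ht i')
  rcases eq_or_ne r k with rfl | hr
  · rw [abs_le]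
    constructor <;> linarith [k1.1, k1.2, k2.1, k2.2]
  · obtain ⟨l, rfl⟩ := Fin.exists_succAbove_eq hr
    have h1 : fl 0 (uT k g c e i) l = fl 0 (uT k g c e i') l := by rw [h.ps i, h.ps i']
    have h2 := Int.abs_sub_lt_one_of_floor_eq_floor h1
    simp only [pow_zero, one_mul] at h2
    have h3 : ∀ i : ι, |uT k g c e i l - c i (k.succAbove l)| ≤ 2 := by
      intro i
      have e1 : uT k g c e i l - c i (k.succAbove l) =
          ((g : ℝ) * hm d - c i k) * slp k (e i) l := by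
        unfold uT psl; ring
      rw [e1, abs_mul]
      have h4 := (h.mx i).slp (h.unit i) l
      have h5 : |(g : ℝ) * hm d - c i k| ≤ 2 := by
        rw [abs_sub_comm]
        exact h.ht i
      calc |(g : ℝ) * hm d - c i k| * |slp k (e i) l| ≤ 2 * 1 := by gcongr
        _ = _ := mul_one _
    have k3 := abs_le.mp (h3 i)
    have k4 := abs_le.mp (h3 i')
    have k5 := abs_lt.mp h2
    rw [abs_le]
    constructor <;> linarith [k3.1, k3.2, k4.1, k4.2, k5.1, k5.2]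

lemma wc_bdd {k : Fin (d + 1)} {g : ℤ} {q : Fin d → ℤ} {c e : ι → E d} (h : Cell2 k g q c e)
    (i i' : ι) (r : Fin (d + 1)) : |((wc c i r - wc c i' r : ℤ) : ℝ)| ≤ 5 * ((d : ℝ) + 1) + 1 := by
  refine floor_near ?_
  rw [← mul_sub, abs_mul, abs_of_pos (by positivity : (0 : ℝ) < (d : ℝ) + 1), mul_comm]
  have := cen_near h i i' r
  gcongr

/-- Rounded direction. -/
noncomputable def wd (ρ : ℝ) (e : ι → E d) (i : ι) (r : Fin (d + 1)) : ℤ :=
  ⌊((d : ℝ) + 1) / ρ * e i r⌋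

lemma wd_near {ρ : ℝ} (hρ : 0 < ρ) {e : ι → E d} {i i' : ι} (h : wd ρ e i = wd ρ e i') :
    ‖e i - e i'‖ ≤ ρ := by
  have hd : (0 : ℝ) < (d : ℝ) + 1 := by positivity
  have h1 : ∀ r, |(e i - e i') r| ≤ ρ / ((d : ℝ) + 1) := by
    intro r
    have h2 := Int.abs_sub_lt_one_of_floor_eq_floor (congrFun h r)
    rw [← mul_sub, abs_mul, abs_of_pos (by positivity)] at h2
    rw [PiLp.sub_apply, le_div_iff₀ hd]
    rw [div_mul_eq_mul_div, div_lt_one hρ] at h2
    linarith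
  have h3 := norm_le_of_coord (by positivity) h1
  rwa [mul_div_cancel₀ _ hd.ne'] at h3

lemma wd_bdd {ρ C : ℝ} (hρ : 0 < ρ) {e : ι → E d} {i i' : ι} (h : ‖e i - e i'‖ ≤ C * ρ)
    (r : Fin (d + 1)) :
    |((wd ρ e i r - wd ρ e i' r : ℤ) : ℝ)| ≤ ((d : ℝ) + 1) * C + 1 := by
  refine floor_near ?_
  have hd : (0 : ℝ) < (d : ℝ) + 1 := by positivity
  rw [← mul_sub, abs_mul, abs_of_pos (by positivity)]
  have h1 : |e i r - e i' r| ≤ C * ρ := (coord_le (e i - e i') r).trans h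
  calc ((d : ℝ) + 1) / ρ * |e i r - e i' r| ≤ ((d : ℝ) + 1) / ρ * (C * ρ) := by gcongr
    _ = ((d : ℝ) + 1) * C := by field_simp

/-- Tubes in one cylinder have close positions. -/
lemma pos_near {k : Fin (d + 1)} {g : ℤ} {q : Fin d → ℤ} {c e : ι → E d} (h : Cell2 k g q c e)
    {δ r : ℝ} (hδ : 0 ≤ δ) (hr : 4 * ((d : ℝ) + 1) * r ≤ 1) {x f : E d} (hf : ‖f‖ = 1)
    {i i' : ι} (hi : tube δ (c i) (e i) ⊆ cyl r x f) (hi' : tube δ (c i') (e i') ⊆ cyl r x f)
    (l : Fin d) : |uT k g c e i l - uT k g c e i' l| ≤ 30 * ((d : ℝ) + 1) ^ 2 * r := by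
  have hd : (0 : ℝ) < (d : ℝ) + 1 := by positivity
  have hd1 : (1 : ℝ) ≤ (d : ℝ) + 1 := by have : (0 : ℝ) ≤ d := by positivity
                                         linarith
  have hh := hm_pos d
  -- the points of the axes
  have hax : ∀ i : ι, tube δ (c i) (e i) ⊆ cyl r x f → ∃ a : E d,
      ‖(a - x) - ⟪a - x, f⟫ • f‖ ≤ 5 * ((d : ℝ) + 1) * r ∧ a k = g * hm d ∧
      ∀ l, a (k.succAbove l) = uT k g c e i l := by
    intro i hi
    have hk := (h.mx i).ne (h.unit i)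
    have hkp := (h.mx i).pos (h.unit i)
    obtain ⟨s, hs⟩ : ∃ s : ℝ, s = ((g : ℝ) * hm d - c i k) / e i k := ⟨_, rfl⟩
    have hs2 : |s| ≤ 2 * ((d : ℝ) + 1) := by
      rw [hs, abs_div, div_le_iff₀ (abs_pos.mpr hk)]
      have h1 : |(g : ℝ) * hm d - c i k| ≤ 2 := by
        rw [abs_sub_comm]
        exact h.ht i
      refine h1.trans ?_
      have h2 : 1 ≤ ((d : ℝ) + 1) * |e i k| := by
        rw [div_le_iff₀ hd] at hkp
        linarith
      linarith
    refine ⟨c i + s • e i, ?_, ?_, ?_⟩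
    · have p1 : ‖(c i + (1 / 2 : ℝ) • e i - x) - ⟪c i + (1 / 2 : ℝ) • e i - x, f⟫ • f‖ ≤ r :=
        hi (axis_mem hδ (c := c i) (h.unit i) (s := 1 / 2) (by rw [abs_of_pos] <;> norm_num))
      have p2 : ‖(c i + (-(1 / 2) : ℝ) • e i - x) - ⟪c i + (-(1 / 2) : ℝ) • e i - x, f⟫ • f‖ ≤ r :=
        hi (axis_mem hδ (c := c i) (h.unit i) (s := -(1 / 2)) (by
          rw [abs_neg, abs_of_pos] <;> norm_num))
      have hr0 : 0 ≤ r := (norm_nonneg _).trans p1
      have key : (c i + s • e i - x) - ⟪c i + s • e i - x, f⟫ • f =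
          (1 / 2 + s) • ((c i + (1 / 2 : ℝ) • e i - x) -
            ⟪c i + (1 / 2 : ℝ) • e i - x, f⟫ • f) +
          (1 / 2 - s) • ((c i + (-(1 / 2) : ℝ) • e i - x) -
            ⟪c i + (-(1 / 2) : ℝ) • e i - x, f⟫ • f) := by
        simp only [inner_sub_left, inner_add_left, inner_smul_left, RCLike.conj_to_real]
        module
      rw [key]
      have hs3 := abs_le.mp hs2
      calc ‖(1 / 2 + s) • ((c i + (1 / 2 : ℝ) • e i - x) -
            ⟪c i + (1 / 2 : ℝ) • e i - x, f⟫ • f) +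
          (1 / 2 - s) • ((c i + (-(1 / 2) : ℝ) • e i - x) -
            ⟪c i + (-(1 / 2) : ℝ) • e i - x, f⟫ • f)‖
          ≤ |1 / 2 + s| * r + |1 / 2 - s| * r := by
            refine (norm_add_le _ _).trans ?_
            rw [norm_smul, norm_smul, Real.norm_eq_abs, Real.norm_eq_abs]
            gcongr
        _ ≤ (1 / 2 + |s|) * r + (1 / 2 + |s|) * r := by
            gcongr
            · exact (abs_add_le _ _).trans (by rw [abs_of_pos (by norm_num : (0 : ℝ) < 1 / 2)])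
            · exact (abs_sub _ _).trans (by rw [abs_of_pos (by norm_num : (0 : ℝ) < 1 / 2)])
        _ = (1 + 2 * |s|) * r := by ring
        _ ≤ (5 * ((d : ℝ) + 1)) * r := by
            gcongr
            linarith
    · simp only [PiLp.add_apply, PiLp.smul_apply, smul_eq_mul, hs]
      field_simp
      ring
    · intro l
      simp only [PiLp.add_apply, PiLp.smul_apply, smul_eq_mul, hs]
      unfold uT psl slp
      field_simp
  obtain ⟨a, ha1, ha2, ha3⟩ := hax i hi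
  obtain ⟨a', ha1', ha2', ha3'⟩ := hax i' hi'
  have hr0 : 0 ≤ r := (norm_nonneg _).trans
    (hi (axis_mem hδ (c := c i) (h.unit i) (s := 1 / 2) (by rw [abs_of_pos] <;> norm_num)))
  -- the direction of the cylinder
  have hdir : ‖e i - ⟪e i, f⟫ • f‖ ≤ 2 * r := by
    have h1 := hi (axis_mem hδ (c := c i) (h.unit i) (s := 1 / 2) (by rw [abs_of_pos] <;> norm_num))
    have h2 := hi (axis_mem hδ (c := c i) (h.unit i) (s := -(1 / 2)) (by
      rw [abs_neg, abs_of_pos] <;> norm_num))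
    have h3 := cyl_two h1 h2
    have h4 : c i + (1 / 2 : ℝ) • e i - (c i + (-(1 / 2) : ℝ) • e i) = e i := by
      module
    rwa [h4] at h3
  have hin : |⟪e i, f⟫| ≤ 1 := by
    have := abs_real_inner_le_norm (e i) f
    rwa [h.unit i, hf, one_mul] at this
  have hfk : 1 / (2 * ((d : ℝ) + 1)) ≤ |f k| := by
    have h1 := (coord_le (e i - ⟪e i, f⟫ • f) k).trans hdir
    simp only [PiLp.sub_apply, PiLp.smul_apply, smul_eq_mul] at h1
    have h2 := (h.mx i).pos (h.unit i)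
    have h3 : |e i k| ≤ |e i k - ⟪e i, f⟫ * f k| + |⟪e i, f⟫ * f k| := by
      have := abs_add_le (e i k - ⟪e i, f⟫ * f k) (⟪e i, f⟫ * f k)
      simpa using this
    have h4 : |⟪e i, f⟫ * f k| ≤ |f k| := by
      rw [abs_mul]
      exact mul_le_of_le_one_left (abs_nonneg _) hin
    have h5 : 2 * r ≤ 1 / (2 * ((d : ℝ) + 1)) := by
      rw [le_div_iff₀ (by positivity)]
      linarith
    have h6 : 1 / ((d : ℝ) + 1) = 1 / (2 * ((d : ℝ) + 1)) + 1 / (2 * ((d : ℝ) + 1)) := by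
      field_simp; norm_num
    linarith
  set z : E d := a - a' with hzdef
  have hz : ‖z - ⟪z, f⟫ • f‖ ≤ 10 * ((d : ℝ) + 1) * r := by
    have h1 : z - ⟪z, f⟫ • f =
        ((a - x) - ⟪a - x, f⟫ • f) - ((a' - x) - ⟪a' - x, f⟫ • f) := by
      have h2 : z = (a - x) - (a' - x) := by rw [hzdef]; abel
      rw [h2, inner_sub_left, sub_smul]
      abel
    rw [h1]
    refine (norm_sub_le _ _).trans ?_
    linarith
  have hzk : z k = 0 := by
    rw [hzdef, PiLp.sub_apply, ha2, ha2', sub_self]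
  have hzf : |⟪z, f⟫| ≤ 20 * ((d : ℝ) + 1) ^ 2 * r := by
    have h1 := (coord_le (z - ⟪z, f⟫ • f) k).trans hz
    simp only [PiLp.sub_apply, PiLp.smul_apply, smul_eq_mul] at h1
    rw [hzk, zero_sub, abs_neg, abs_mul] at h1
    have h2 : |⟪z, f⟫| * (1 / (2 * ((d : ℝ) + 1))) ≤ 10 * ((d : ℝ) + 1) * r :=
      (mul_le_mul_of_nonneg_left hfk (abs_nonneg _)).trans h1
    rw [mul_one_div, div_le_iff₀ (by positivity)] at h2
    nlinarith
  have h1 := (coord_le (z - ⟪z, f⟫ • f) (k.succAbove l)).trans hz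
  simp only [PiLp.sub_apply, PiLp.smul_apply, smul_eq_mul] at h1
  have h2 : z (k.succAbove l) = uT k g c e i l - uT k g c e i' l := by
    rw [hzdef, PiLp.sub_apply, ha3, ha3']
  rw [← h2]
  have h3 : |z (k.succAbove l)| ≤ |z (k.succAbove l) - ⟪z, f⟫ * f (k.succAbove l)| +
      |⟪z, f⟫ * f (k.succAbove l)| := by
    have := abs_add_le (z (k.succAbove l) - ⟪z, f⟫ * f (k.succAbove l))
      (⟪z, f⟫ * f (k.succAbove l))
    simpa using this
  have h4 : |⟪z, f⟫ * f (k.succAbove l)| ≤ 20 * ((d : ℝ) + 1) ^ 2 * r := by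
    rw [abs_mul]
    have h5 : |f (k.succAbove l)| ≤ 1 := by
      have := coord_le f (k.succAbove l)
      rwa [hf] at this
    calc |⟪z, f⟫| * |f (k.succAbove l)| ≤ (20 * ((d : ℝ) + 1) ^ 2 * r) * 1 := by gcongr
      _ = _ := mul_one _
  have h5 : 10 * ((d : ℝ) + 1) * r ≤ 10 * ((d : ℝ) + 1) ^ 2 * r := by
    have : 0 ≤ ((d : ℝ) + 1) * r := by positivity
    nlinarith
  linarith

/-- Shifted floors. -/
lemma sft_floor {j : ℕ} {u : ι → Fin d → ℝ} {σ : Fin d → ℝ} {i i' : ι} {l : Fin d} {B : ℝ}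
    (h : 2 ^ j * |u i l - u i' l| ≤ B) :
    |((Fl (sft u σ) j i l - Fl (sft u σ) j i' l : ℤ) : ℝ)| ≤ B + 1 := by
  refine floor_near ?_
  have h1 : (2 : ℝ) ^ j * sft u σ i l - 2 ^ j * sft u σ i' l = 2 ^ j * (u i l - u i' l) := by
    unfold sft
    ring
  rw [h1, abs_mul, abs_of_pos (by positivity)]
  exact h

end TS2

open TS2 in
open TST (hm_pos hm_mul hm_le floor_near wc wc_near cyl_two axis_mem) in
/-- **TS2**. -/
theorem ts2_thm : TS2Stmt := by
  intro d L c₄ hL hc₄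
  have hd : (0 : ℝ) < (d : ℝ) + 1 := by positivity
  have hL0 : 0 < L := by linarith
  have hc0 : 0 < c₄ := by linarith
  obtain ⟨M₀, hM₀⟩ : ∃ M₀ : ℝ, M₀ = 4 * ((d : ℝ) + 1) * (L * c₄) + 1 := ⟨_, rfl⟩
  have hM₀0 : 0 < M₀ := by rw [hM₀]; positivity
  obtain ⟨M₁, hM₁⟩ : ∃ M₁ : ℝ, M₁ = 30 * ((d : ℝ) + 1) ^ 2 * (L * c₄) + 1 := ⟨_, rfl⟩
  have hM₁0 : 0 < M₁ := by rw [hM₁]; positivity
  obtain ⟨M₂, hM₂⟩ : ∃ M₂ : ℝ, M₂ = 5 * ((d : ℝ) + 1) + 1 := ⟨_, rfl⟩
  have hM₂0 : 0 < M₂ := by rw [hM₂]; positivity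
  obtain ⟨M₃, hM₃⟩ : ∃ M₃ : ℝ, M₃ = ((d : ℝ) + 1) * (16 * ((d : ℝ) + 1) ^ 2 * c₄) + 1 := ⟨_, rfl⟩
  have hM₃0 : 0 < M₃ := by rw [hM₃]; positivity
  obtain ⟨C₅, hC₅⟩ : ∃ C₅ : ℝ, C₅ = max ((2 * M₀ + 1) ^ d)
    ((2 * M₂ + 1) ^ (d + 1) * (2 * M₃ + 1) ^ (d + 1) * (2 * M₁ + 1) ^ d) := ⟨_, rfl⟩
  have hC1 : (2 * M₀ + 1) ^ d ≤ C₅ := by rw [hC₅]; exact le_max_left _ _
  have hC2 : (2 * M₂ + 1) ^ (d + 1) * (2 * M₃ + 1) ^ (d + 1) * (2 * M₁ + 1) ^ d ≤ C₅ := by
    rw [hC₅]; exact le_max_right _ _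
  have hC3 : 1 ≤ C₅ := le_trans (one_le_pow₀ (by linarith)) hC1
  refine ⟨C₅, hC3, ?_⟩
  intro δ ρ j A hδ hδ1 hδρ hρ1 hρj hjρ ι _ c e k g q hcell hA hcov p σ hp
  have h2j : (0 : ℝ) < 2 ^ j := by positivity
  have hA1 : (1 : ℝ) ≤ A := by exact_mod_cast hA
  have hA0 : (0 : ℝ) < A := by linarith
  have hρ0 : 0 < ρ := by linarith
  have h2ρ : (2 : ℝ) ^ j * ρ ≤ c₄ := by
    have := mul_le_mul_of_nonneg_left hρj h2j.le
    calc (2 : ℝ) ^ j * ρ ≤ 2 ^ j * (c₄ * ((2 : ℝ) ^ j)⁻¹) := this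
      _ = c₄ := by field_simp
  have h2ρ' : 1 ≤ c₄ * (2 ^ j * ρ) := by
    have := mul_le_mul_of_nonneg_left hjρ h2j.le
    calc (1 : ℝ) = 2 ^ j * ((2 : ℝ) ^ j)⁻¹ := by field_simp
      _ ≤ 2 ^ j * (c₄ * ρ) := this
      _ = c₄ * (2 ^ j * ρ) := by ring
  by_cases hcase : 4 * ((d : ℝ) + 1) * (L * ρ) ≤ 1
  · -- small scales
    have : Nonempty ι := by
      by_contra hcon
      rw [not_nonempty_iff] at hcon
      have := hp.sum_one
      simp at this
    let W : ι → (Fin (d + 1) → ℤ) × (Fin (d + 1) → ℤ) := fun i => (wc c i, wd ρ e i)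
    have hrep : ∀ i, W (Function.invFun W (W i)) = W i := fun i =>
      Function.invFun_eq ⟨i, rfl⟩
    have hch : ∀ v : (Fin (d + 1) → ℤ) × (Fin (d + 1) → ℤ), ∃ F : Finset (E d × E d),
        F.card ≤ A ∧ (∀ f ∈ F, ‖f.2‖ = 1) ∧ ∀ i, ‖c i - c (Function.invFun W v)‖ ≤ 1 →
          ‖e i - e (Function.invFun W v)‖ ≤ ρ →
          ∃ f ∈ F, tube δ (c i) (e i) ⊆ cyl (L * ρ) f.1 f.2 := fun v =>
      hcov (c (Function.invFun W v)) (e (Function.invFun W v)) (hcell.unit _)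
    choose F hF1 hF2 hF3 using hch
    have hex : ∀ i, ∃ f ∈ F (W i), tube δ (c i) (e i) ⊆ cyl (L * ρ) f.1 f.2 := by
      intro i
      refine hF3 (W i) i ?_ ?_
      · refine wc_near ?_
        have := (Prod.ext_iff.mp (hrep i)).1
        exact this.symm
      · refine wd_near hρ0 ?_
        have := (Prod.ext_iff.mp (hrep i)).2
        exact this.symm
    choose fx hfx1 hfx2 using hex
    -- four conditional entropies
    have k1 : CH p (wc c) (Fl (dT k e) j) ≤ ((d + 1 : ℕ) : ℝ) * Real.log (2 * M₂ + 1) := by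
      have := CH_le_vec hp.nonneg hp.sum_one (wc c) (Fl (dT k e) j) (fun _ => M₂)
        (fun i i' _ _ _ r => by rw [hM₂]; exact wc_bdd hcell i i' r)
      rwa [Ex_const hp.sum_one] at this
    have k1' : CH p (wd ρ e) (Fl (dT k e) j) ≤ ((d + 1 : ℕ) : ℝ) * Real.log (2 * M₃ + 1) := by
      have := CH_le_vec hp.nonneg hp.sum_one (wd ρ e) (Fl (dT k e) j) (fun _ => M₃) ?_
      · rwa [Ex_const hp.sum_one] at this
      · intro i i' _ _ hii r
        rw [hM₃]
        refine wd_bdd hρ0 ?_ r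
        refine (dir_near hcell hii).trans ?_
        calc 16 * ((d : ℝ) + 1) ^ 2 * ((2 : ℝ) ^ j)⁻¹ ≤ 16 * ((d : ℝ) + 1) ^ 2 * (c₄ * ρ) := by
              gcongr
          _ = _ := by ring
    have k2 : CH p fx W ≤ Real.log A := by
      refine (CH_le_card hp.nonneg hp.sum_one fx W F (fun i _ => hfx1 i)).trans ?_
      rw [← Ex_const hp.sum_one (Real.log A)]
      refine Ex_mono hp.nonneg fun i _ => ?_
      refine Real.log_le_log ?_ (by exact_mod_cast hF1 (W i))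
      exact_mod_cast Finset.card_pos.mpr ⟨_, hfx1 i⟩
    have k3 : CH p (Fl (sft (uT k g c e) σ) j) fx ≤ (d : ℝ) * Real.log (2 * M₁ + 1) := by
      have := CH_le_vec hp.nonneg hp.sum_one (Fl (sft (uT k g c e) σ) j) fx (fun _ => M₁) ?_
      · rwa [Ex_const hp.sum_one] at this
      · intro i i' _ _ hii l
        have h1 := pos_near hcell hδ.le hcase (hF2 _ _ (hfx1 i)) (hfx2 i)
          (by rw [hii]; exact hfx2 i') l
        rw [hM₁]
        refine sft_floor ?_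
        calc (2 : ℝ) ^ j * |uT k g c e i l - uT k g c e i' l|
            ≤ 2 ^ j * (30 * ((d : ℝ) + 1) ^ 2 * (L * ρ)) := by gcongr
          _ = 30 * ((d : ℝ) + 1) ^ 2 * (L * (2 ^ j * ρ)) := by ring
          _ ≤ 30 * ((d : ℝ) + 1) ^ 2 * (L * c₄) := by gcongr
    have s0 : CH p (Fl (sft (uT k g c e) σ) j) (Fl (dT k e) j) ≤ CH p W (Fl (dT k e) j) +
        CH p (Fl (sft (uT k g c e) σ) j) (fun i => (W i, Fl (dT k e) j i)) :=
      CH_le_add hp.nonneg (Fl (sft (uT k g c e) σ) j) W (Fl (dT k e) j)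
    have s1 : CH p W (Fl (dT k e) j) ≤ CH p (wc c) (Fl (dT k e) j) +
        CH p (wd ρ e) (Fl (dT k e) j) :=
      CH_subadd hp.nonneg (wc c) (wd ρ e) (Fl (dT k e) j)
    have s2 : CH p (Fl (sft (uT k g c e) σ) j) W ≤ CH p fx W +
        CH p (Fl (sft (uT k g c e) σ) j) (fun i => (fx i, W i)) :=
      CH_le_add hp.nonneg (Fl (sft (uT k g c e) σ) j) fx W
    have s3 : CH p (Fl (sft (uT k g c e) σ) j) (fun i => (fx i, W i)) ≤
        CH p (Fl (sft (uT k g c e) σ) j) fx :=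
      CH_mono_cond hp.nonneg (fun i i' _ _ h => (Prod.ext_iff.mp h).1)
    have s4 : CH p (Fl (sft (uT k g c e) σ) j) (fun i => (W i, Fl (dT k e) j i)) ≤
        CH p (Fl (sft (uT k g c e) σ) j) W :=
      CH_mono_cond hp.nonneg (fun i i' _ _ h => (Prod.ext_iff.mp h).1)
    have hlog : Real.log ((2 * M₂ + 1) ^ (d + 1) * (2 * M₃ + 1) ^ (d + 1) *
        (2 * M₁ + 1) ^ d * A) = ((d + 1 : ℕ) : ℝ) * Real.log (2 * M₂ + 1) +
          ((d + 1 : ℕ) : ℝ) * Real.log (2 * M₃ + 1) + d * Real.log (2 * M₁ + 1) + Real.log A := by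
      rw [Real.log_mul (by positivity) hA0.ne', Real.log_mul (by positivity) (by positivity),
        Real.log_mul (by positivity) (by positivity), Real.log_pow, Real.log_pow, Real.log_pow]
    have hle : Real.log ((2 * M₂ + 1) ^ (d + 1) * (2 * M₃ + 1) ^ (d + 1) *
        (2 * M₁ + 1) ^ d * A) ≤ Real.log (C₅ * A) :=
      Real.log_le_log (by positivity) (by gcongr)
    linarith
  · -- large scales
    push Not at hcase
    have h2M : (2 : ℝ) ^ j + 1 ≤ M₀ := by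
      have h1 : (2 : ℝ) ^ j * 1 ≤ 2 ^ j * (4 * ((d : ℝ) + 1) * (L * ρ)) := by gcongr
      have h2 : (2 : ℝ) ^ j * (4 * ((d : ℝ) + 1) * (L * ρ)) =
          4 * ((d : ℝ) + 1) * (L * (2 ^ j * ρ)) := by ring
      have h3 : 4 * ((d : ℝ) + 1) * (L * (2 ^ j * ρ)) ≤ 4 * ((d : ℝ) + 1) * (L * c₄) := by gcongr
      rw [hM₀]
      linarith
    have h1 := CH_le_vec hp.nonneg hp.sum_one (Fl (sft (uT k g c e) σ) j) (Fl (dT k e) j)
      (fun _ => M₀) ?_
    · rw [Ex_const hp.sum_one] at h1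
      refine h1.trans ?_
      rw [← Real.log_pow]
      refine Real.log_le_log (by positivity) ?_
      calc (2 * M₀ + 1) ^ d ≤ C₅ * 1 := by rw [mul_one]; exact hC1
        _ ≤ C₅ * A := by gcongr
    · intro i i' _ _ _ l
      have h3 : fl 0 (uT k g c e i) l = fl 0 (uT k g c e i') l := by
        rw [hcell.ps i, hcell.ps i']
      have h4 := Int.abs_sub_lt_one_of_floor_eq_floor h3
      simp only [pow_zero, one_mul] at h4
      refine le_trans (sft_floor (B := 2 ^ j) ?_) h2M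
      calc (2 : ℝ) ^ j * |uT k g c e i l - uT k g c e i' l| ≤ 2 ^ j * 1 := by gcongr
        _ = 2 ^ j := mul_one _

end Pool.STK
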